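import Pool.Agent.H25.MZ.Targets
import Pool.Agent.H62.DL.EU

/-!
# Zeros of L-functions (board mz_modules, helper25), module SP: many Frobenius elements with
non-zero trace
helper77
-/

set_option autoImplicit false

open Complex Set Metric Filter Topology NumberField

namespace Pool.Agent.H77.MZ

open Pool.Agent.H25.DL Pool.Agent.H25.MZ Pool.Agent.H25.HK

/-! ### a completely multiplicative function times `n ^ (-s)` -/

/-- the homomorphism `n ↦ h n * n ^ (-s)` -/
noncomputable def hom0 (h : ℕ → ℂ) (h0 : h 0 = 0) (h1 : h 1 = 1)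
    (hm : ∀ a b, h (a * b) = h a * h b) (s : ℂ) : ℕ →*₀ ℂ where
  toFun n := h n * (n : ℂ) ^ (-s)
  map_zero' := by rw [h0, zero_mul]
  map_one' := by rw [h1]; simp
  map_mul' a b := by
    rw [hm, Nat.cast_mul, Complex.natCast_mul_natCast_cpow]
    ring

theorem hom0_summable (h : ℕ → ℂ) (h0 : h 0 = 0) (h1 : h 1 = 1)
    (hm : ∀ a b, h (a * b) = h a * h b) (hle : ∀ n, ‖h n‖ ≤ 1) (s : ℂ) (hs : 1 < s.re) :
    Summable (fun n => ‖hom0 h h0 h1 hm s n‖) := by
  have h2 := (Pool.Agent.H62.DL.ser_summable h hle s hs).norm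
  refine h2.congr fun n => ?_
  rw [LSeries.term_def₀ h0]
  rfl

theorem log_bound (z : ℂ) (hz : ‖z‖ ≤ 1 / 2) : (-Complex.log (1 - z)).re ≤ z.re + ‖z‖ ^ 2 := by
  have h1 : ‖-z‖ < 1 := by rw [norm_neg]; linarith
  have h2 := Complex.norm_log_one_add_sub_self_le h1
  rw [norm_neg, sub_neg_eq_add, ← sub_eq_add_neg] at h2
  have h3 : ‖z‖ ^ 2 * (1 - ‖z‖)⁻¹ / 2 ≤ ‖z‖ ^ 2 := by
    have h4 : (1 - ‖z‖)⁻¹ ≤ 2 := by
      rw [inv_le_comm₀ (by linarith) (by norm_num)]
      linarith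
    have h5 : 0 ≤ ‖z‖ ^ 2 := by positivity
    nlinarith
  have h6 : -(Complex.log (1 - z) + z).re ≤ ‖Complex.log (1 - z) + z‖ := by
    have := Complex.abs_re_le_norm (Complex.log (1 - z) + z)
    exact (neg_le_abs _).trans this
  rw [Complex.add_re] at h6
  rw [Complex.neg_re]
  linarith

/-- the primes with a prime ideal of degree one above them -/
theorem zeta_sum (hEP : T_EP) (L : Type) [Field L] [NumberField L] :
    ¬ Summable (fun p : Nat.Primes => if spf L p 1 ≠ 0 then (1 : ℝ) / ((p : ℕ) : ℝ) else 0) := by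
  intro hsum
  obtain ⟨h, h0, h1, hm, hle, hz, hspf⟩ := hEP L
  have hp2 : Summable (fun p : Nat.Primes => (1 : ℝ) / ((p : ℕ) : ℝ) ^ 2) := by
    have h2 : Summable (fun n : ℕ => (1 : ℝ) / (n : ℝ) ^ 2) :=
      Real.summable_one_div_nat_pow.2 (by norm_num)
    exact h2.comp_injective (i := fun p : Nat.Primes => (p : ℕ)) Subtype.val_injective
  set B : Nat.Primes → ℝ := fun p =>
    (Module.finrank ℚ L : ℝ) * (if spf L p 1 ≠ 0 then (1 : ℝ) / ((p : ℕ) : ℝ) else 0) +
      (Module.finrank ℚ L : ℝ) * (1 / ((p : ℕ) : ℝ) ^ 2)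
    with hB
  have hBs : Summable B := (hsum.mul_left _).add (hp2.mul_left _)
  -- the bound on the zeta function
  have key : ∀ s : ℝ, 1 < s → ‖dedekindZeta L s‖ ≤ Real.exp (∑' p, B p) := by
    intro s hs
    have hsre : 1 < (s : ℂ).re := by simpa using hs
    have hlog : ∀ j, cexp (∑' p : Nat.Primes,
        -Complex.log (1 - hom0 (h j) (h0 j) (h1 j) (hm j) s p))
          = ∑' m : ℕ, h j m * (m : ℂ) ^ (-(s : ℂ)) := fun j =>
      EulerProduct.exp_tsum_primes_log_eq_tsum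
        (hom0_summable (h j) (h0 j) (h1 j) (hm j) (hle j) s hsre)
    have hls : ∀ j, Summable (fun p : Nat.Primes =>
        -Complex.log (1 - hom0 (h j) (h0 j) (h1 j) (hm j) s p)) := fun j =>
      ((hom0_summable (h j) (h0 j) (h1 j) (hm j) (hle j) s hsre).of_norm.clog_one_sub.neg).subtype
        Nat.Prime
    rw [hz s hsre]
    have e1 : (∏ j, ∑' m : ℕ, h j m * (m : ℂ) ^ (-(s : ℂ)))
        = cexp (∑ j, ∑' p : Nat.Primes,
          -Complex.log (1 - hom0 (h j) (h0 j) (h1 j) (hm j) s p)) := by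
      rw [Complex.exp_sum]
      exact Finset.prod_congr rfl fun j _ => (hlog j).symm
    rw [e1, Complex.norm_exp, ← Summable.tsum_finsetSum (fun j _ => hls j)]
    have hsf : Summable (fun p : Nat.Primes => ∑ j,
        -Complex.log (1 - hom0 (h j) (h0 j) (h1 j) (hm j) s p)) := summable_sum fun j _ => hls j
    rw [Complex.re_tsum hsf]
    apply Real.exp_le_exp.2
    refine Summable.tsum_le_tsum (fun p => ?_) (Complex.reCLM.summable hsf) hBs
    rw [Complex.re_sum]
    have hp0 : (0 : ℝ) < ((p : ℕ) : ℝ) := by exact_mod_cast p.2.pos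
    have hp2 : (2 : ℝ) ≤ ((p : ℕ) : ℝ) := by exact_mod_cast p.2.two_le
    have hpsn : ‖((p : ℕ) : ℂ) ^ (-(s : ℂ))‖ ≤ 1 / ((p : ℕ) : ℝ) := by
      rw [Complex.norm_natCast_cpow_of_pos p.2.pos, Complex.neg_re, Complex.ofReal_re,
        Real.rpow_neg hp0.le, one_div]
      apply inv_anti₀ hp0
      calc ((p : ℕ) : ℝ) = ((p : ℕ) : ℝ) ^ (1 : ℝ) := (Real.rpow_one _).symm
        _ ≤ ((p : ℕ) : ℝ) ^ s := Real.rpow_le_rpow_of_exponent_le (by linarith) hs.le
    have hzn : ∀ j, ‖hom0 (h j) (h0 j) (h1 j) (hm j) s p‖ ≤ 1 / ((p : ℕ) : ℝ) := by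
      intro j
      have : hom0 (h j) (h0 j) (h1 j) (hm j) s p = h j p * ((p : ℕ) : ℂ) ^ (-(s : ℂ)) := rfl
      rw [this, norm_mul]
      calc _ ≤ 1 * (1 / ((p : ℕ) : ℝ)) := mul_le_mul (hle j p) hpsn (norm_nonneg _) zero_le_one
        _ = _ := one_mul _
    have hhalf : 1 / ((p : ℕ) : ℝ) ≤ 1 / 2 := by
      apply one_div_le_one_div_of_le (by norm_num) hp2
    calc ∑ j, (-Complex.log (1 - hom0 (h j) (h0 j) (h1 j) (hm j) s p)).re
        ≤ ∑ j, ((hom0 (h j) (h0 j) (h1 j) (hm j) s p).re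
            + ‖hom0 (h j) (h0 j) (h1 j) (hm j) s p‖ ^ 2) :=
          Finset.sum_le_sum fun j _ => log_bound _ ((hzn j).trans hhalf)
      _ ≤ ∑ j, ((hom0 (h j) (h0 j) (h1 j) (hm j) s p).re + (1 / ((p : ℕ) : ℝ)) ^ 2) := by
          refine Finset.sum_le_sum fun j _ => ?_
          have := pow_le_pow_left₀ (norm_nonneg _) (hzn j) 2
          linarith
      _ = (∑ j, h j p * ((p : ℕ) : ℂ) ^ (-(s : ℂ))).re +
            (Module.finrank ℚ L : ℝ) * (1 / ((p : ℕ) : ℝ) ^ 2) := by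
          rw [Finset.sum_add_distrib, Complex.re_sum, Finset.sum_const, Finset.card_univ,
            Fintype.card_fin, nsmul_eq_mul, one_div_pow]
          rfl
      _ ≤ B p := by
          rw [hB]
          simp only
          refine add_le_add ?_ le_rfl
          rw [← Finset.sum_mul]
          have h3 := hspf p 1 p.2 le_rfl
          simp only [pow_one] at h3
          rw [h3]
          by_cases hs0 : spf L p 1 = 0
          · rw [hs0]
            simp
          · rw [if_pos hs0]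
            have h4 : ‖((spf L p 1 : ℕ) : ℂ)‖ ≤ (Module.finrank ℚ L : ℝ) := by
              rw [← h3]
              refine (norm_sum_le _ _).trans ?_
              calc _ ≤ ∑ _j : Fin (Module.finrank ℚ L), (1 : ℝ) := Finset.sum_le_sum fun j _ => hle j p
                _ = (Module.finrank ℚ L : ℝ) := by simp
            calc _ ≤ ‖((spf L p 1 : ℕ) : ℂ) * ((p : ℕ) : ℂ) ^ (-(s : ℂ))‖ := Complex.re_le_norm _
              _ ≤ (Module.finrank ℚ L : ℝ) * (1 / ((p : ℕ) : ℝ)) := by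
                  rw [norm_mul]
                  exact mul_le_mul h4 hpsn (norm_nonneg _) (Nat.cast_nonneg _)
  -- contradiction with the residue
  have hres := tendsto_sub_one_mul_dedekindZeta_nhdsGT L
  have hz0 : Tendsto (fun s : ℝ => (s - 1 : ℂ) * dedekindZeta L s) (𝓝[>] 1) (𝓝 0) := by
    rw [tendsto_zero_iff_norm_tendsto_zero]
    have h3 : Tendsto (fun s : ℝ => |s - 1| * Real.exp (∑' p, B p)) (𝓝[>] 1) (𝓝 0) := by
      have h4 : Tendsto (fun s : ℝ => |s - 1| * Real.exp (∑' p, B p)) (𝓝 1)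
          (𝓝 (|1 - 1| * Real.exp (∑' p, B p))) := by
        apply Continuous.tendsto
        fun_prop
      rw [sub_self, abs_zero, zero_mul] at h4
      exact h4.mono_left nhdsWithin_le_nhds
    refine squeeze_zero' (Eventually.of_forall fun s => norm_nonneg _) ?_ h3
    filter_upwards [self_mem_nhdsWithin] with s hs
    rw [norm_mul]
    have h5 : ‖(s - 1 : ℂ)‖ = |s - 1| := by
      rw [← Complex.ofReal_one, ← Complex.ofReal_sub, Complex.norm_real, Real.norm_eq_abs]
    rw [h5]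
    exact mul_le_mul_of_nonneg_left (key s hs) (abs_nonneg _)
  have h6 := tendsto_nhds_unique hres hz0
  have h7 := dedekindZeta_residue_ne_zero L
  rw [Complex.ofReal_eq_zero] at h6
  exact h7 h6

/-! ### ramification -/

theorem exists_moved (R : ArtinRep) (g : R.K ≃ₐ[ℚ] R.K) (hg : g ≠ 1) :
    ∃ a : 𝓞 R.K, g • a ≠ a := by
  by_contra hc
  push Not at hc
  apply hg
  ext x
  obtain ⟨a, b, hb, rfl⟩ := IsFractionRing.div_surjective (A := 𝓞 R.K) x
  have h1 : ∀ a : 𝓞 R.K, g (algebraMap (𝓞 R.K) R.K a) = algebraMap (𝓞 R.K) R.K a := by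
    intro a
    have h2 := congrArg (algebraMap (𝓞 R.K) R.K) (hc a)
    have h3 : algebraMap (𝓞 R.K) R.K (g • a) = g • algebraMap (𝓞 R.K) R.K a :=
      algebraMap.coe_smul' g a R.K
    rw [h3] at h2
    exact h2
  rw [map_div₀, h1, h1]
  rfl

theorem ram_finite (R : ArtinRep) : {p : Nat.Primes | R.In p ≠ ⊥}.Finite := by
  classical
  have : Finite (R.K ≃ₐ[ℚ] R.K) := inferInstance
  -- one non-trivial element
  have h1 : ∀ g : R.K ≃ₐ[ℚ] R.K, g ≠ 1 → {p : Nat.Primes | g ∈ R.In p}.Finite := by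
    intro g hg
    obtain ⟨a, ha⟩ := exists_moved R g hg
    set x : 𝓞 R.K := g • a - a with hx
    have hx0 : x ≠ 0 := sub_ne_zero.2 ha
    set n : ℕ := Ideal.absNorm (Ideal.span {x}) with hn
    have hn0 : n ≠ 0 := by
      rw [hn, Ne, Ideal.absNorm_eq_zero_iff, Ideal.span_singleton_eq_bot]
      exact hx0
    have h2 : ∀ p : Nat.Primes, g ∈ R.In p → (p : ℕ) ≤ n := by
      intro p hp
      have h3 : x ∈ R.P p := by
        have h4 : ∀ y : 𝓞 R.K, g • y - y ∈ R.P p := hp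
        exact h4 a
      have h5 : (n : 𝓞 R.K) ∈ R.P p := by
        have h6 : (n : 𝓞 R.K) ∈ Ideal.span {x} := Ideal.absNorm_mem _
        have h7 : Ideal.span {x} ≤ R.P p := by
          rw [Ideal.span_singleton_le_iff_mem]
          exact h3
        exact h7 h6
      have h7 : (p : ℕ) ∣ n := by
        by_contra hnd
        have hcop : IsCoprime ((p : ℕ) : ℤ) (n : ℤ) := by
          rw [Int.isCoprime_iff_nat_coprime]
          simp only [Int.natAbs_natCast]
          exact (Nat.Prime.coprime_iff_not_dvd p.2).2 hnd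
        obtain ⟨u, v, huv⟩ := hcop
        have h8 : (1 : 𝓞 R.K) ∈ R.P p := by
          have h9 : ((u * ((p : ℕ) : ℤ) + v * (n : ℤ) : ℤ) : 𝓞 R.K) = 1 := by rw [huv]; simp
          rw [← h9]
          push_cast
          exact (R.P p).add_mem ((R.P p).mul_mem_left _ (R.P_mem p)) ((R.P p).mul_mem_left _ h5)
        exact (R.P_prime p).ne_top ((Ideal.eq_top_iff_one _).2 h8)
      exact Nat.le_of_dvd (Nat.pos_of_ne_zero hn0) h7
    refine Set.Finite.subset (s := (fun p : Nat.Primes => (p : ℕ)) ⁻¹' (Set.Iic n)) ?_ ?_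
    · exact (Set.finite_Iic _).preimage Subtype.val_injective.injOn
    · intro p hp
      exact h2 p hp
  have h2 : {p : Nat.Primes | R.In p ≠ ⊥} ⊆ ⋃ g ∈ {g : R.K ≃ₐ[ℚ] R.K | g ≠ 1},
      {p : Nat.Primes | g ∈ R.In p} := by
    intro p hp
    have hp' : R.In p ≠ ⊥ := hp
    obtain ⟨g, hg⟩ := Subgroup.ne_bot_iff_exists_ne_one.1 hp'
    simp only [Set.mem_iUnion]
    exact ⟨(g : R.K ≃ₐ[ℚ] R.K), fun h => hg (Subtype.ext h), g.2⟩
  exact (Set.Finite.biUnion (Set.toFinite _) h1).subset h2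

/-- an unramified prime with a prime ideal of degree one above it splits completely -/
theorem trace_ne (hPE : T_PE) (R : ArtinRep) (hd : 0 < R.dim) (p : Nat.Primes)
    (hI : R.In p = ⊥) (hs : spf (FF R ⊥) p 1 ≠ 0) : LinearMap.trace ℂ R.V (R.fr p) ≠ 0 := by
  have h1 := hPE R ⊥ p 1 le_rfl
  rw [hI] at h1
  have hu : Unique (⊥ : Subgroup (R.K ≃ₐ[ℚ] R.K)) := inferInstance
  rw [finsum_eq_sum_of_fintype] at h1
  simp only [pow_one, Fintype.sum_unique] at h1
  have hdef : ((default : (⊥ : Subgroup (R.K ≃ₐ[ℚ] R.K))) : R.K ≃ₐ[ℚ] R.K) = 1 :=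
    Subgroup.mem_bot.1 (default : (⊥ : Subgroup (R.K ≃ₐ[ℚ] R.K))).2
  rw [hdef, mul_one] at h1
  have hpc : pc (⊥ : Subgroup (R.K ≃ₐ[ℚ] R.K)) (R.Fr p) ≠ 0 := by
    intro h0
    rw [h0, Nat.cast_zero, mul_zero] at h1
    exact hs (by exact_mod_cast h1)
  have hFr : R.Fr p = 1 := by
    unfold pc at hpc
    have hne : Nonempty {x : (R.K ≃ₐ[ℚ] R.K) ⧸ (⊥ : Subgroup (R.K ≃ₐ[ℚ] R.K)) // R.Fr p • x = x} := by
      by_contra he
      rw [not_nonempty_iff] at he
      exact hpc (Nat.card_of_isEmpty)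
    obtain ⟨⟨x, hx⟩⟩ := hne
    induction x using QuotientGroup.induction_on with
    | H y =>
      have h2 : (QuotientGroup.mk (R.Fr p * y) : (R.K ≃ₐ[ℚ] R.K) ⧸ (⊥ : Subgroup (R.K ≃ₐ[ℚ] R.K)))
          = QuotientGroup.mk y := hx
      rw [QuotientGroup.eq, Subgroup.mem_bot] at h2
      have h3 : R.Fr p * y = y := inv_mul_eq_one.1 h2
      exact mul_eq_right.1 h3
  have hav : R.avg (R.In p) = 1 := by
    rw [hI]
    unfold ArtinRep.avg
    rw [finsum_eq_sum_of_fintype, Fintype.sum_unique, hdef]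
    simp
  unfold ArtinRep.fr
  rw [hav, hFr, map_one, mul_one, LinearMap.trace_one]
  have : (Module.finrank ℂ R.V) ≠ 0 := hd.ne'
  exact_mod_cast this

theorem sp (hEP : T_EP) (hPE : T_PE) : T_SP := by
  classical
  intro R hd hsum
  apply zeta_sum hEP (FF R ⊥)
  have hfin := ram_finite R
  -- the target sum as a sum with an indicator
  have h1 : Summable (Set.indicator {p : Nat.Primes | LinearMap.trace ℂ R.V (R.fr p) ≠ 0}
      (fun p : Nat.Primes => (1 : ℝ) / ((p : ℕ) : ℝ))) :=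
    summable_subtype_iff_indicator.1 hsum
  have h2 : Summable (Set.indicator {p : Nat.Primes | R.In p ≠ ⊥}
      (fun p : Nat.Primes => (1 : ℝ) / ((p : ℕ) : ℝ))) :=
    summable_of_hasFiniteSupport (hfin.subset Set.support_indicator_subset)
  refine Summable.of_nonneg_of_le (fun p => ?_) (fun p => ?_) (h1.add h2)
  · split_ifs
    · positivity
    · exact le_rfl
  · have hnn : (0 : ℝ) ≤ 1 / ((p : ℕ) : ℝ) := by positivity
    have i1 : 0 ≤ Set.indicator {p : Nat.Primes | LinearMap.trace ℂ R.V (R.fr p) ≠ 0}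
      (fun p : Nat.Primes => (1 : ℝ) / ((p : ℕ) : ℝ)) p :=
      Set.indicator_nonneg (fun p _ => by positivity) p
    have i2 : 0 ≤ Set.indicator {p : Nat.Primes | R.In p ≠ ⊥}
      (fun p : Nat.Primes => (1 : ℝ) / ((p : ℕ) : ℝ)) p :=
      Set.indicator_nonneg (fun p _ => by positivity) p
    by_cases hs : spf (FF R ⊥) p 1 = 0
    · rw [if_neg (fun h => h hs)]
      exact add_nonneg i1 i2
    · rw [if_pos hs]
      by_cases hI : R.In p = ⊥
      · have h3 : LinearMap.trace ℂ R.V (R.fr p) ≠ 0 := trace_ne hPE R hd p hI hs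
        have h4 : Set.indicator {p : Nat.Primes | LinearMap.trace ℂ R.V (R.fr p) ≠ 0}
            (fun p : Nat.Primes => (1 : ℝ) / ((p : ℕ) : ℝ)) p = 1 / ((p : ℕ) : ℝ) :=
          Set.indicator_of_mem (s := {p : Nat.Primes | LinearMap.trace ℂ R.V (R.fr p) ≠ 0})
            (a := p) h3 _
        rw [h4]
        linarith
      · have h4 : Set.indicator {p : Nat.Primes | R.In p ≠ ⊥}
            (fun p : Nat.Primes => (1 : ℝ) / ((p : ℕ) : ℝ)) p = 1 / ((p : ℕ) : ℝ) :=
          Set.indicator_of_mem (s := {p : Nat.Primes | R.In p ≠ ⊥}) (a := p) hI _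
        rw [h4]
        linarith

end Pool.Agent.H77.MZ
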