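import Pool.Agent.H25.MZ.Targets

/-!
# Zeros of L-functions (board mz_modules, helper25), module RB: a root of a holomorphic function on a ball
helper77
-/

set_option autoImplicit false

open Complex Set Metric Filter Topology

namespace Pool.Agent.H77.MZ

open Pool.Agent.H25.MZ

/-- a holomorphic function without zeros on a ball has a holomorphic logarithm -/
theorem exists_log_ball (c : ℂ) (R : ℝ) (hR : 0 < R) (g : ℂ → ℂ)
    (hg : DifferentiableOn ℂ g (ball c R)) (h0 : ∀ z ∈ ball c R, g z ≠ 0) :
    ∃ l : ℂ → ℂ, DifferentiableOn ℂ l (ball c R) ∧ ∀ z ∈ ball c R, cexp (l z) = g z := by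
  have hgd : DifferentiableOn ℂ (deriv g) (ball c R) := hg.deriv isOpen_ball
  have hq : DifferentiableOn ℂ (fun z => deriv g z / g z) (ball c R) := hgd.div hg h0
  have hcm : c ∈ ball c R := mem_ball_self hR
  obtain ⟨F, hF0, hF⟩ := hq.isExactOn_ball.with_val_at c (Complex.log (g c))
  have hFd : DifferentiableOn ℂ F (ball c R) :=
    fun z hz => (hF z hz).differentiableAt.differentiableWithinAt
  have key : ∀ z ∈ ball c R, g z * cexp (-F z) = g c * cexp (-F c) := by
    have hconst : ∀ z ∈ ball c R, HasDerivAt (fun z => g z * cexp (-F z)) 0 z := by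
      intro z hz
      have h1 : HasDerivAt g (deriv g z) z :=
        (hg.differentiableAt (isOpen_ball.mem_nhds hz)).hasDerivAt
      have h2 := (hF z hz).neg.cexp
      have h3 := h1.mul h2
      refine h3.congr_deriv ?_
      have := h0 z hz
      field_simp
      simp
    intro z hz
    exact (convex_ball c R).is_const_of_fderivWithin_eq_zero (𝕜 := ℂ)
      (f := fun z => g z * cexp (-F z))
      (fun z hz => (hconst z hz).differentiableAt.differentiableWithinAt)
      (fun z hz => by
        have h := (hconst z hz).hasDerivWithinAt (s := ball c R)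
        have h' := h.hasFDerivWithinAt.fderivWithin (isOpen_ball.uniqueDiffWithinAt hz)
        rw [h']; simp) hz hcm
  refine ⟨F, hFd, fun z hz => ?_⟩
  have h1 := key z hz
  have h2 : cexp (F c) = g c := by rw [hF0, Complex.exp_log (h0 c hcm)]
  have h3 : g c * cexp (-F c) = 1 := by rw [← h2, ← Complex.exp_add]; simp
  rw [h3] at h1
  calc cexp (F z) = (g z * cexp (-F z)) * cexp (F z) := by rw [h1, one_mul]
    _ = g z * (cexp (-F z) * cexp (F z)) := by ring
    _ = g z := by rw [← Complex.exp_add]; simp

theorem rb : T_RB := by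
  intro c R R' m G hR' hRR' hm hG hp hord
  set R2 := (R' + R) / 2 with hR2
  have h1 : R' < R2 := by rw [hR2]; linarith
  have h2 : R2 < R := by rw [hR2]; linarith
  have hR20 : 0 < R2 := hR'.trans h1
  have hsub : closedBall c R2 ⊆ ball c R := closedBall_subset_ball h2
  have han : ∀ z ∈ ball c R, AnalyticAt ℂ G z := fun z hz =>
    hG.analyticAt (isOpen_ball.mem_nhds hz)
  have hmer : MeromorphicOn G (closedBall c R2) := fun z hz => (han z (hsub hz)).meromorphicAt
  -- natural exponents
  choose! k hk using hord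
  have hmo : ∀ z ∈ closedBall c R2, meromorphicOrderAt G z = (((m * k z : ℕ) : ℤ) : WithTop ℤ) := by
    intro z hz
    rw [(han z (hsub hz)).meromorphicOrderAt_eq, hk z (hsub hz)]
    rfl
  have hfin : (MeromorphicOn.divisor G (closedBall c R2)).support.Finite :=
    (MeromorphicOn.divisor G (closedBall c R2)).finiteSupport (isCompact_closedBall c R2)
  obtain ⟨g1, hg1, hg10, hg1e⟩ := hmer.extract_zeros_poles
    (fun u => by rw [hmo u u.2]; exact WithTop.coe_ne_top) hfin
  set S := hfin.toFinset with hS
  have hD : ∀ u ∈ S, MeromorphicOn.divisor G (closedBall c R2) u = ((m * k u : ℕ) : ℤ) := by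
    intro u hu
    have hu' : u ∈ closedBall c R2 := by
      have := (MeromorphicOn.divisor G (closedBall c R2)).supportWithinDomain
      exact this (hfin.mem_toFinset.1 hu)
    rw [MeromorphicOn.divisor_apply hmer hu', hmo u hu']
    rfl
  set P : ℂ → ℂ := fun z => ∏ u ∈ S, (z - u) ^ k u with hP
  have hPf : ∀ z, (∏ᶠ u, (· - u) ^ MeromorphicOn.divisor G (closedBall c R2) u) z
      = P z ^ m := by
    intro z
    rw [Function.FactorizedRational.finprod_eq_fun hfin]
    simp only
    rw [finprod_eq_prod_of_mulSupport_subset (s := S)]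
    · rw [hP]
      simp only
      rw [← Finset.prod_pow]
      refine Finset.prod_congr rfl fun u hu => ?_
      rw [hD u hu, zpow_natCast, mul_comm, pow_mul]
    · intro u hu
      rw [hS, Finite.coe_toFinset, Function.mem_support]
      intro h
      apply hu
      simp [h]
  have hbsub : ball c R2 ⊆ closedBall c R2 := ball_subset_closedBall
  have hg1d : DifferentiableOn ℂ g1 (ball c R2) :=
    fun z hz => (hg1 z (hbsub hz)).differentiableAt.differentiableWithinAt
  obtain ⟨l, hl, hle⟩ := exists_log_ball c R2 hR20 g1 hg1d (fun z hz => hg10 ⟨z, hbsub hz⟩)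
  have hb' : ball c R' ⊆ ball c R2 := ball_subset_ball h1.le
  have hPd : Differentiable ℂ P := by
    rw [hP]
    fun_prop
  refine ⟨fun z => P z * cexp (l z / m), ?_, ?_⟩
  · exact hPd.differentiableOn.mul ((hl.mono hb').div_const _).cexp
  · intro z hz
    have hz2 : z ∈ ball c R2 := hb' hz
    have hev : ∀ᶠ y in 𝓝[≠] z, G y = P y ^ m * g1 y := by
      have h3 : {y | G y = ((∏ᶠ u, (· - u) ^ MeromorphicOn.divisor G (closedBall c R2) u) • g1) y}
          ∈ codiscreteWithin (closedBall c R2) := hg1e
      rw [mem_codiscreteWithin_iff_forall_mem_nhdsNE] at h3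
      have h4 := h3 z (hbsub hz2)
      have h5 : closedBall c R2 ∈ 𝓝[≠] z :=
        nhdsWithin_le_nhds (mem_of_superset (isOpen_ball.mem_nhds hz2) hbsub)
      filter_upwards [h4, h5] with y hy1 hy2
      rcases hy1 with hy | hy
      · rw [mem_ofPred_eq] at hy
        rw [hy, Pi.smul_apply', hPf, smul_eq_mul]
      · exact absurd hy2 hy
    have hc1 : ContinuousAt G z := (han z (hsub (hbsub hz2))).continuousAt
    have hc2 : ContinuousAt (fun y => P y ^ m * g1 y) z :=
      ((hPd z).continuousAt.pow m).mul (hg1 z (hbsub hz2)).continuousAt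
    have heq : G z = P z ^ m * g1 z := by
      have t1 : Tendsto G (𝓝[≠] z) (𝓝 (G z)) := hc1.mono_left nhdsWithin_le_nhds
      have t2 : Tendsto (fun y => P y ^ m * g1 y) (𝓝[≠] z) (𝓝 (P z ^ m * g1 z)) :=
        hc2.mono_left nhdsWithin_le_nhds
      exact tendsto_nhds_unique (t1.congr' hev) t2
    have hm0 : (m : ℂ) ≠ 0 := by
      have : m ≠ 0 := by omega
      exact_mod_cast this
    rw [heq, mul_pow, ← Complex.exp_nat_mul, mul_div_cancel₀ _ hm0, hle z hz2]

end Pool.Agent.H77.MZ
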