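import Pool.Agent.H25.MZ.Targets
import Pool.Agent.H62.DL.EU

/-!
# Zeros of L-functions (board mz_modules, helper25), module RO: the product of the root series
helper77
-/

set_option autoImplicit false

open Complex Set Metric Filter Topology

namespace Pool.Agent.H77.MZ

open Pool.Agent.H25.DL Pool.Agent.H25.MZ

theorem ro (hZC : T_ZC) : T_RO := by
  intro F m hm s hs
  unfold Pr
  rw [← Finset.prod_pow]
  refine Finset.prod_congr rfl fun l _ => ?_
  have hl := hs l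
  rcases l with x | x
  · have h := (hZC m ((F.p x.1).L.h x.2) hm ((F.p x.1).L.h_zero _) ((F.p x.1).L.h_one _)
      ((F.p x.1).L.h_mul _) ((F.p x.1).L.h_le _) (wl (F.p x.1).r (F.p x.1).τ s) hl).1
    exact h
  · have h := (hZC m ((F.q x.1).L.h x.2) hm ((F.q x.1).L.h_zero _) ((F.q x.1).L.h_one _)
      ((F.q x.1).L.h_mul _) ((F.q x.1).L.h_le _) (wl (F.q x.1).r (F.q x.1).τ s) hl).2
    have h2 := Pool.Agent.H62.DL.ser_inv ((F.q x.1).L.h x.2) ((F.q x.1).L.h_zero _)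
      ((F.q x.1).L.h_one _) ((F.q x.1).L.h_mul _) ((F.q x.1).L.h_le _)
      (wl (F.q x.1).r (F.q x.1).τ s) hl
    have h3 : (∑' k : ℕ, (F.q x.1).L.h x.2 k * (k : ℂ) ^ (-(wl (F.q x.1).r (F.q x.1).τ s))) ≠ 0 := by
      intro h0
      rw [h0, zero_mul] at h2
      exact zero_ne_one h2
    have e1 : (rf F m (Sum.inr x)).D s ^ m
        * (∑' k : ℕ, (F.q x.1).L.h x.2 k * (k : ℂ) ^ (-(wl (F.q x.1).r (F.q x.1).τ s))) = 1 := h
    have e2 : (F.f (Sum.inr x)).D s
        * (∑' k : ℕ, (F.q x.1).L.h x.2 k * (k : ℂ) ^ (-(wl (F.q x.1).r (F.q x.1).τ s))) = 1 := by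
      rw [mul_comm]
      exact h2
    exact mul_right_cancel₀ h3 (e1.trans e2.symm)

end Pool.Agent.H77.MZ
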