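import Pool.Agent.H25.MZ.Targets
import Pool.Agent.H77.MZ.RB

/-!
# Zeros of L-functions (board mz_modules, helper25), module YR: a root of the inverse factor
helper77
-/

set_option autoImplicit false

open Complex Set Metric Filter Topology

namespace Pool.Agent.H77.MZ

open Pool.Agent.H25.DL Pool.Agent.H25.MZ

/-- a holomorphic logarithm on a half plane -/
theorem exists_log_half (a : ℝ) (g : ℂ → ℂ) (hg : ∀ s : ℂ, a < s.im → DifferentiableAt ℂ g s)
    (h0 : ∀ s : ℂ, a < s.im → g s ≠ 0) :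
    ∃ l : ℂ → ℂ, (∀ s : ℂ, a < s.im → DifferentiableAt ℂ l s) ∧
      ∀ s : ℂ, a < s.im → cexp (l s) = g s := by
  set φ : ℂ → ℂ := fun w => a * I + I * ((1 + w) / (1 - w)) with hφ
  set ψ : ℂ → ℂ := fun s => (s - a * I - I) / (s - a * I + I) with hψ
  have hne1 : ∀ w ∈ ball (0 : ℂ) 1, 1 - w ≠ 0 := by
    intro w hw h
    rw [mem_ball_zero_iff] at hw
    have : w = 1 := by linear_combination -h
    rw [this] at hw
    simp at hw
  have hφim : ∀ w ∈ ball (0 : ℂ) 1, a < (φ w).im := by
    intro w hw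
    have h1 := hne1 w hw
    have hn : 0 < normSq (1 - w) := normSq_pos.2 h1
    rw [mem_ball_zero_iff] at hw
    have hw2 : normSq w < 1 := by
      rw [Complex.normSq_eq_norm_sq]
      nlinarith [norm_nonneg w]
    have e1 : (φ w).im = a + ((1 + w) / (1 - w)).re := by
      simp [hφ]
    have e2 : ((1 + w) / (1 - w)).re = (1 - normSq w) / normSq (1 - w) := by
      rw [Complex.div_re, ← add_div]
      congr 1
      simp [normSq_apply]
      ring
    rw [e1, e2]
    have : 0 < (1 - normSq w) / normSq (1 - w) := div_pos (by linarith) hn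
    linarith
  have hφd : ∀ w ∈ ball (0 : ℂ) 1, DifferentiableAt ℂ φ w := by
    intro w hw
    have h1 := hne1 w hw
    exact (((differentiableAt_const _).add differentiableAt_id).div
      ((differentiableAt_const _).sub differentiableAt_id) h1).const_mul I |>.const_add _
  have hne2 : ∀ s : ℂ, a < s.im → s - a * I + I ≠ 0 := by
    intro s hs h
    have := congrArg Complex.im h
    simp at this
    linarith
  have hψb : ∀ s : ℂ, a < s.im → ψ s ∈ ball (0 : ℂ) 1 := by
    intro s hs
    have h2 := hne2 s hs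
    rw [mem_ball_zero_iff, hψ]
    simp only
    rw [norm_div, div_lt_one (norm_pos_iff.2 h2)]
    have h3 : normSq (s - a * I - I) < normSq (s - a * I + I) := by
      simp [normSq_apply]
      nlinarith
    rw [Complex.normSq_eq_norm_sq, Complex.normSq_eq_norm_sq] at h3
    exact lt_of_pow_lt_pow_left₀ 2 (norm_nonneg _) h3
  have hψd : ∀ s : ℂ, a < s.im → DifferentiableAt ℂ ψ s := by
    intro s hs
    exact ((differentiableAt_id.sub_const _).sub_const _).div
      ((differentiableAt_id.sub_const _).add_const _) (hne2 s hs)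
  have hφψ : ∀ s : ℂ, a < s.im → φ (ψ s) = s := by
    intro s hs
    have h2 := hne2 s hs
    have e1 : 1 + ψ s = 2 * (s - a * I) / (s - a * I + I) := by
      simp only [hψ]
      field_simp
      ring
    have e2 : 1 - ψ s = 2 * I / (s - a * I + I) := by
      simp only [hψ]
      field_simp
      ring
    simp only [hφ]
    rw [e1, e2]
    field_simp
    ring_nf
  obtain ⟨l, hl, hle⟩ := exists_log_ball 0 1 one_pos (g ∘ φ)
    (fun w hw => ((hg _ (hφim w hw)).comp w (hφd w hw)).differentiableWithinAt)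
    (fun w hw => h0 _ (hφim w hw))
  refine ⟨l ∘ ψ, fun s hs => ?_, fun s hs => ?_⟩
  · exact (hl.differentiableAt (isOpen_ball.mem_nhds (hψb s hs))).comp s (hψd s hs)
  · have h1 := hle _ (hψb s hs)
    simp only [Function.comp_apply] at h1 ⊢
    rw [h1, hφψ s hs]

theorem const_of_int (t₀ : ℝ) (x : ℝ → ℝ) (hc : ContinuousOn x (Ici t₀))
    (hx : ∀ t ∈ Ici t₀, ∃ n : ℤ, x t = n) : ∃ n : ℤ, ∀ t ∈ Ici t₀, x t = n := by
  have hdisc : DiscreteTopology (Set.range (Int.cast : ℤ → ℝ)) :=
    (Int.isClosedEmbedding_coe_real.isEmbedding.toHomeomorph.symm.isEmbedding).discreteTopology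
  obtain ⟨n, hn⟩ := hx t₀ (mem_Ici.2 le_rfl)
  refine ⟨n, fun t ht => ?_⟩
  rw [← hn]
  exact (isPreconnected_Ici (a := t₀)).constant_of_mapsTo
    (T := Set.range (Int.cast : ℤ → ℝ)) ⟨hdisc⟩ hc
    (fun t ht => by
      obtain ⟨k, hk⟩ := hx t ht
      exact ⟨k, hk.symm⟩) ht (mem_Ici.2 le_rfl)

theorem yr (hPH : T_PH) (hYN : T_YN) : T_YR := by
  intro F m hm
  obtain ⟨t₁, hPh⟩ := hPH F
  have hm0 : (0 : ℝ) < m := by exact_mod_cast hm
  have hmC : (m : ℂ) ≠ 0 := by exact_mod_cast hm0.ne'
  -- a height beyond which all arguments are in the upper half plane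
  obtain ⟨a, ha⟩ : ∃ a : ℝ, ∀ s : ℂ, a < s.im →
      (∀ i, 0 < (wl (F.p i).r (F.p i).τ s).im) ∧ ∀ j, 0 < (wl (F.q j).r (F.q j).τ s).im := by
    have him : ∀ (r τ : ℝ) (s : ℂ), (wl r τ s).im = r * s.im + τ := by
      intro r τ s
      simp [wl]
    refine ⟨∑ i, |(F.p i).τ| / (F.p i).r + ∑ j, |(F.q j).τ| / (F.q j).r, fun s hs => ⟨?_, ?_⟩⟩
    · intro i
      rw [him]
      have hr := (F.p i).r_pos
      have h1 : |(F.p i).τ| / (F.p i).r ≤ ∑ i, |(F.p i).τ| / (F.p i).r :=
        Finset.single_le_sum (f := fun i => |(F.p i).τ| / (F.p i).r)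
          (fun i _ => div_nonneg (abs_nonneg _) (F.p i).r_pos.le) (Finset.mem_univ i)
      have h2 : 0 ≤ ∑ j, |(F.q j).τ| / (F.q j).r :=
        Finset.sum_nonneg fun j _ => div_nonneg (abs_nonneg _) (F.q j).r_pos.le
      have h3 : |(F.p i).τ| / (F.p i).r < s.im := by linarith
      rw [div_lt_iff₀ hr] at h3
      have := neg_abs_le (F.p i).τ
      nlinarith
    · intro j
      rw [him]
      have hr := (F.q j).r_pos
      have h1 : |(F.q j).τ| / (F.q j).r ≤ ∑ j, |(F.q j).τ| / (F.q j).r :=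
        Finset.single_le_sum (f := fun j => |(F.q j).τ| / (F.q j).r)
          (fun j _ => div_nonneg (abs_nonneg _) (F.q j).r_pos.le) (Finset.mem_univ j)
      have h2 : 0 ≤ ∑ i, |(F.p i).τ| / (F.p i).r :=
        Finset.sum_nonneg fun i _ => div_nonneg (abs_nonneg _) (F.p i).r_pos.le
      have h3 : |(F.q j).τ| / (F.q j).r < s.im := by linarith
      rw [div_lt_iff₀ hr] at h3
      have := neg_abs_le (F.q j).τ
      nlinarith
  have hwd : ∀ (r τ : ℝ) (s : ℂ), DifferentiableAt ℂ (wl r τ) s := by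
    intro r τ s
    unfold wl
    fun_prop
  have hYd : ∀ s : ℂ, a < s.im → DifferentiableAt ℂ F.Y s := by
    intro s hs
    obtain ⟨h1, h2⟩ := ha s hs
    unfold Fam.Y
    refine DifferentiableAt.div ?_ ?_ ?_
    · exact DifferentiableAt.fun_finsetProd fun i _ =>
        ((hYN (F.p i).L _ (h1 i)).1.comp s (hwd _ _ s))
    · exact DifferentiableAt.fun_finsetProd fun j _ =>
        ((hYN (F.q j).L _ (h2 j)).1.comp s (hwd _ _ s))
    · exact Finset.prod_ne_zero_iff.2 fun j _ => (hYN (F.q j).L _ (h2 j)).2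
  have hY0 : ∀ s : ℂ, a < s.im → F.Y s ≠ 0 := by
    intro s hs
    obtain ⟨h1, h2⟩ := ha s hs
    unfold Fam.Y
    exact div_ne_zero (Finset.prod_ne_zero_iff.2 fun i _ => (hYN (F.p i).L _ (h1 i)).2)
      (Finset.prod_ne_zero_iff.2 fun j _ => (hYN (F.q j).L _ (h2 j)).2)
  obtain ⟨l, hld, hle⟩ := exists_log_half a F.Y hYd hY0
  obtain ⟨κ, B, η, C, hκ, hmain⟩ := hPh.main
  have hC0 : 0 ≤ C := by
    have h1 := hmain t₁ le_rfl
    have h2 : 0 ≤ C / t₁ := (norm_nonneg _).trans h1
    have h3 : 0 < t₁ := by linarith [hPh.one_le]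
    rw [div_nonneg_iff] at h2
    rcases h2 with h | h
    · exact h.1
    · linarith [h.2]
  set t₀ := max (max t₁ (a + 1)) (2 * C) with ht₀
  have ht1 : t₁ ≤ t₀ := (le_max_left _ _).trans (le_max_left _ _)
  have hta : a < t₀ := by
    have : a + 1 ≤ t₀ := (le_max_right _ _).trans (le_max_left _ _)
    linarith
  have htC : 2 * C ≤ t₀ := le_max_right _ _
  have h1t : 1 ≤ t₀ := hPh.one_le.trans ht1
  have hκ0 : κ ≠ 0 := by
    intro h
    rw [h, norm_zero] at hκ
    exact zero_ne_one hκ
  set Θ : ℝ → ℝ := fun t => F.d * t * Real.log t + B * t + η * Real.log t with hΘ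
  set δ : ℝ → ℂ := fun t => F.Y (1 / 2 + t * I) / (κ * cexp ((Θ t : ℝ) * I)) - 1 with hδ
  have hden : ∀ t, κ * cexp ((Θ t : ℝ) * I) ≠ 0 := fun t => mul_ne_zero hκ0 (Complex.exp_ne_zero _)
  have hdenn : ∀ t, ‖κ * cexp ((Θ t : ℝ) * I)‖ = 1 := by
    intro t
    rw [norm_mul, hκ, Complex.norm_exp_ofReal_mul_I, one_mul]
  have him : ∀ t : ℝ, (1 / 2 + t * I : ℂ).im = t := by
    intro t
    simp
  have hδle : ∀ t, t₀ ≤ t → ‖δ t‖ ≤ C / t := by
    intro t ht
    have e : δ t = (F.Y (1 / 2 + t * I) - κ * cexp ((Θ t : ℝ) * I)) / (κ * cexp ((Θ t : ℝ) * I)) := by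
      simp only [hδ]
      rw [sub_div, div_self (hden t)]
    rw [e, norm_div, hdenn, div_one]
    exact hmain t (ht1.trans ht)
  have hδhalf : ∀ t, t₀ ≤ t → ‖δ t‖ ≤ 1 / 2 := by
    intro t ht
    refine (hδle t ht).trans ?_
    have : 0 < t := by linarith
    rw [div_le_div_iff₀ this (by norm_num)]
    linarith
  have h1δ : ∀ t, t₀ ≤ t → 1 + δ t ∈ slitPlane := by
    intro t ht
    apply Complex.mem_slitPlane_of_norm_lt_one
    have := hδhalf t ht
    linarith
  -- continuity
  have hcurve : Continuous fun t : ℝ => (1 / 2 + t * I : ℂ) := by fun_prop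
  have hYc : ContinuousOn (fun t : ℝ => F.Y (1 / 2 + t * I)) (Ici t₀) := by
    intro t ht
    have h1 : a < (1 / 2 + t * I : ℂ).im := by rw [him]; exact hta.trans_le ht
    exact (ContinuousAt.comp (g := F.Y) (f := fun t : ℝ => (1 / 2 + t * I : ℂ))
      (hYd _ h1).continuousAt hcurve.continuousAt).continuousWithinAt
  have hlc : ContinuousOn (fun t : ℝ => l (1 / 2 + t * I)) (Ici t₀) := by
    intro t ht
    have h1 : a < (1 / 2 + t * I : ℂ).im := by rw [him]; exact hta.trans_le ht
    exact (ContinuousAt.comp (g := l) (f := fun t : ℝ => (1 / 2 + t * I : ℂ))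
      (hld _ h1).continuousAt hcurve.continuousAt).continuousWithinAt
  have hΘc : ContinuousOn Θ (Ici t₀) := by
    have hlog : ContinuousOn Real.log (Ici t₀) := fun t ht =>
      (Real.continuousAt_log (by have h2 : t₀ ≤ t := ht; linarith)).continuousWithinAt
    exact (((continuousOn_const.mul continuousOn_id).mul hlog).add
      (continuousOn_const.mul continuousOn_id)).add (continuousOn_const.mul hlog)
  have hΘcC : ContinuousOn (fun t => ((Θ t : ℝ) : ℂ)) (Ici t₀) :=
    Complex.continuous_ofReal.comp_continuousOn hΘc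
  have hδc : ContinuousOn δ (Ici t₀) := by
    refine ContinuousOn.sub (ContinuousOn.div hYc ?_ (fun t _ => hden t)) continuousOn_const
    exact continuousOn_const.mul (hΘcC.mul continuousOn_const).cexp
  set E : ℝ → ℂ := fun t => l (1 / 2 + t * I) - Θ t * I - Complex.log κ
    - Complex.log (1 + δ t) with hE
  have hEc : ContinuousOn E (Ici t₀) := by
    refine ((hlc.sub (hΘcC.mul continuousOn_const)).sub continuousOn_const).sub ?_
    exact (continuousOn_const.add hδc).clog (fun t ht => h1δ t ht)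
  have hEexp : ∀ t, t₀ ≤ t → cexp (E t) = 1 := by
    intro t ht
    have h1 : a < (1 / 2 + t * I : ℂ).im := by rw [him]; exact hta.trans_le ht
    have h2 : 1 + δ t ≠ 0 := Complex.slitPlane_ne_zero (h1δ t ht)
    have e1 : 1 + δ t = F.Y (1 / 2 + t * I) / (κ * cexp ((Θ t : ℝ) * I)) := by
      simp only [hδ]
      ring
    simp only [hE]
    rw [Complex.exp_sub, Complex.exp_sub, Complex.exp_sub, hle _ h1, Complex.exp_log hκ0,
      Complex.exp_log h2, e1]
    have h3 := hY0 _ h1
    have h4 := hden t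
    have h5 := Complex.exp_ne_zero ((Θ t : ℝ) * I)
    generalize F.Y (1 / 2 + t * I) = v at h3
    field_simp
  obtain ⟨n, hn⟩ := const_of_int t₀ (fun t => (E t).im / (2 * Real.pi))
    (fun t ht => ((Complex.continuous_im.comp_continuousOn hEc).div_const _) t ht) (by
      intro t ht
      have h1 := hEexp t ht
      rw [Complex.exp_eq_one_iff] at h1
      obtain ⟨k, hk⟩ := h1
      refine ⟨k, ?_⟩
      rw [hk]
      have : ((k : ℂ) * (2 * Real.pi * I)).im = k * (2 * Real.pi) := by simp
      rw [this]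
      field_simp)
  have hEn : ∀ t, t₀ ≤ t → E t = n * (2 * Real.pi * I) := by
    intro t ht
    have h1 := hEexp t ht
    rw [Complex.exp_eq_one_iff] at h1
    obtain ⟨k, hk⟩ := h1
    have h2 := hn t ht
    rw [hk] at h2
    have h3 : ((k : ℂ) * (2 * Real.pi * I)).im = k * (2 * Real.pi) := by simp
    rw [h3] at h2
    have h4 : (k : ℝ) = n := by
      have : (2 * Real.pi) ≠ 0 := by positivity
      field_simp at h2
      exact h2
    have h5 : k = n := by exact_mod_cast h4
    rw [hk, h5]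
  refine ⟨fun s => cexp (l s / m), t₀, ⟨h1t, ?_, ?_, ?_⟩, ?_⟩
  · intro s hs
    exact ((hld s (hta.trans_le hs)).div_const _).cexp
  · set κ' := cexp ((Complex.log κ + n * (2 * Real.pi * I)) / m) with hκ'
    refine ⟨κ', B / m, η / m, 3 * C, ?_, ?_⟩
    · rw [hκ', Complex.norm_exp]
      have h1 : ((Complex.log κ + n * (2 * Real.pi * I)) / m).re = 0 := by
        have e1 : ((m : ℂ)) = ((m : ℝ) : ℂ) := by simp
        rw [e1, Complex.div_ofReal_re, Complex.add_re, Complex.log_re, hκ, Real.log_one]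
        simp
      rw [h1, Real.exp_zero]
    · intro t ht
      have ht0 : 0 < t := by linarith
      have h2 : l (1 / 2 + t * I) = n * (2 * Real.pi * I) + Θ t * I + Complex.log κ
          + Complex.log (1 + δ t) := by
        have := hEn t ht
        simp only [hE] at this
        linear_combination this
      have e1 : cexp (l (1 / 2 + t * I) / m)
          = κ' * cexp ((F.d / m * t * Real.log t + B / m * t + η / m * Real.log t : ℝ) * I)
            * cexp (Complex.log (1 + δ t) / m) := by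
        rw [h2, hκ', ← Complex.exp_add, ← Complex.exp_add]
        congr 1
        simp only [hΘ]
        push_cast
        field_simp
        ring
      have hlog : ‖Complex.log (1 + δ t)‖ ≤ 3 / 2 * ‖δ t‖ :=
        Complex.norm_log_one_add_half_le_self (hδhalf t ht)
      have hm1 : (1 : ℝ) ≤ m := by exact_mod_cast hm
      have hlm : ‖Complex.log (1 + δ t) / m‖ ≤ 3 / 2 * ‖δ t‖ := by
        rw [norm_div, Complex.norm_natCast]
        exact (div_le_self (norm_nonneg _) hm1).trans hlog
      have hle1 : ‖cexp (Complex.log (1 + δ t) / m) - 1‖ ≤ 3 * ‖δ t‖ := by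
        have h3 : ‖Complex.log (1 + δ t) / m‖ ≤ 1 := by
          have := hδhalf t ht
          linarith
        have := Complex.norm_exp_sub_one_le h3
        linarith
      have hκ'n : ‖κ' * cexp ((F.d / m * t * Real.log t + B / m * t + η / m * Real.log t : ℝ) * I)‖
          = 1 := by
        rw [norm_mul, Complex.norm_exp_ofReal_mul_I, mul_one, hκ', Complex.norm_exp]
        have h1 : ((Complex.log κ + n * (2 * Real.pi * I)) / m).re = 0 := by
          have e1 : ((m : ℂ)) = ((m : ℝ) : ℂ) := by simp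
          rw [e1, Complex.div_ofReal_re, Complex.add_re, Complex.log_re, hκ, Real.log_one]
          simp
        rw [h1, Real.exp_zero]
      rw [e1]
      set w := κ' * cexp ((F.d / m * t * Real.log t + B / m * t + η / m * Real.log t : ℝ) * I)
        with hw
      have e2 : w * cexp (Complex.log (1 + δ t) / m) - w
          = w * (cexp (Complex.log (1 + δ t) / m) - 1) := by ring
      rw [e2, norm_mul, hκ'n, one_mul]
      refine hle1.trans ?_
      have := hδle t ht
      calc 3 * ‖δ t‖ ≤ 3 * (C / t) := by gcongr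
        _ = 3 * C / t := by ring
  · intro b
    obtain ⟨C2, hC2, hgr⟩ := hPh.growth b
    refine ⟨C2 ^ (1 / (m : ℝ)), by positivity, fun σ t h1 h2 h3 => ?_⟩
    have ht0 : 0 < t := by linarith
    have h4 : a < (σ + t * I : ℂ).im := by
      have : (σ + t * I : ℂ).im = t := by simp
      rw [this]
      exact hta.trans_le h3
    have h5 : ‖cexp (l (σ + t * I) / m)‖ ^ m = ‖F.Y (σ + t * I)‖ := by
      rw [← norm_pow, ← Complex.exp_nat_mul, mul_div_cancel₀ _ hmC, hle _ h4]
    have h6 : ‖cexp (l (σ + t * I) / m)‖ ^ m ≤ C2 * t ^ (F.d * (σ - 1 / 2)) := by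
      rw [h5]
      exact hgr σ t h1 h2 (ht1.trans h3)
    have h7 : (C2 * t ^ (F.d * (σ - 1 / 2))) = (C2 ^ (1 / (m : ℝ)) * t ^ (F.d / m * (σ - 1 / 2))) ^ m := by
      rw [mul_pow, ← Real.rpow_natCast (C2 ^ (1 / (m : ℝ))), ← Real.rpow_mul hC2.le,
        ← Real.rpow_natCast (t ^ (F.d / m * (σ - 1 / 2))), ← Real.rpow_mul ht0.le]
      congr 1
      · rw [one_div, inv_mul_cancel₀ hm0.ne', Real.rpow_one]
      · congr 1
        field_simp
    rw [h7] at h6
    exact le_of_pow_le_pow_left₀ (by omega) (by positivity) h6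
  · intro s hs
    simp only
    rw [← Complex.exp_nat_mul, mul_div_cancel₀ _ hmC, hle s (hta.trans_le hs)]

end Pool.Agent.H77.MZ
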